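import Pool.Agent.H62.V0T.Vl
import Pool.Agent.H5.V0T.Nlr

/-!
# The mutual informations of several targets: closed

`vlT : VlTStmt f`.
-/

set_option autoImplicit false

namespace Pool.V0T

/-- **(VLT)** The mutual informations of the targets over the canonical records. -/
theorem vlT (f : ℕ) : VlTStmt f := vlT_fam nlqr f

end Pool.V0T
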