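import Pool.Agent.H48.V0T.Par
import Pool.Agent.H44.V0P.Vlp
import Pool.Agent.H91.V0T.Rowt
import Pool.Agent.H91.FR.QE

/-!
# The mutual informations of several targets over the canonical records

`vlaw_genC`: `VLaw2` on all large events, the near quantity of the targets up to `c₀ J` bits.
`vlT_fam : VlTStmt f` from `NlqrStmt`.
-/

set_option autoImplicit false

namespace Pool.V0T

open Finset Real MvPolynomial
open Pool.Agent.H49.Ent Pool.Agent.H32.Dense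
open Pool.STK hiding pr2
open Pool.KA Pool.KSAT Pool.K2S Pool.PB Pool.S6C
open Pool.GEN Pool.CHT Pool.CHX Pool.ISO Pool.LA91 Pool.AVG71 Pool.AVG5 Pool.D2F2 Pool.AVG57
open Pool.RCD Pool.AVG96 Pool.OWN68 Pool.V0F Pool.V0Q
open Pool.AJW (CfB)
open Pool.VT83 (NlqI VB vlaw_gen)
open Pool.V0R (t_nu0r t_nupr)

variable {m : ℕ}

/-- **The mutual informations of the near digits**, on all large events, the near quantity `Q₁` up
to `c₀ J` bits. -/
theorem vlaw_genC {S : PCl m} {c : ℕ → Fin m} {r : ℕ} {sn : ℕ → ℝ → ℝ} {G : Set ℝ}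
    {b o φ : ℝ} (L : Lad S c r sn G b o φ) {p nn nf : ℕ → ℝ} {w₁ j x x' Δ : ℝ}
    (N : VB r sn G b o φ p nn nf w₁ j x x' Δ) {U₁ U₂ : Type} {Q₁ : Qt m U₁} {Q₂ : Qt m U₂}
    {c₀ : ℝ} (hc₀ : 0 ≤ c₀) (c1 : FewC S (fun J F => ptr F J) (vg j) (fun _ F => F.W)
      (qJets m c 0 r 0 (fun _ _ => b) (fun l _ => p l) (fun l _ => nn l)) Q₁ c₀)
    (c2 : Few0 S (fun J F => ptr F J) (vg x') (fun _ F => F.W) Q₂)
    {sp : ℕ → ℝ → ℝ} {P : Fin r → ℝ} {κf κn : ℝ} (hfr : FrI S c r sp b P w₁ x' κf)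
    (hnl : NlqI S c r w₁ j Q₁ Q₂ κn) (hκf : 0 ≤ κf) (hκn : 0 ≤ κn) (ε : ℝ) (hε : 0 < ε) :
    ∃ k : ℝ, 0 < k ∧ ∃ e₀ : ℝ, 0 < e₀ ∧ ∀ K : ℕ, Bas S (fun J F A =>
      ∀ (V₁ : Type) (zw : F.Ω → V₁) (V₂ : Type) (Rj : F.Ω → V₂) (V₃ : Type) (Rx : F.Ω → V₃)
        (V₄ : Type) (R' : F.Ω → V₄), Mx (fun J F => ptr F J) (vg w₁) k F A zw →
      Mx (fun J F => ptr F J) (vg j) k F A Rj → Mx (fun J F => ptr F J) (vg x) k F A Rx →
      Mx (fun J F => ptr F J) (vg x') k F A R' → ∀ Xq Xp Up N1 N2,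
      (qJets m c 0 r 0 (fun _ _ => b) (fun l _ => p l) (fun l _ => nn l)).P K e₀ J F A Xq →
      (qJets m c 0 r 0 (fun _ _ => b) (fun l _ => p l) (fun l _ => nf l)).P K e₀ J F A Xp →
      (qG m c r sp b P).P K e₀ J F A Up → Q₁.P K e₀ J F A N1 → Q₂.P K e₀ J F A N2 →
      ∀ (δ : Type) (Uq : F.Ω → δ) (κ : ℝ),
      (r * Δ + 20 * (r : ℝ) ^ 2 * φ + κf + κn + c₀ + ε) * J ≤ κ →
      CH (Pool.Agent.H49.Ent.cond F.p A True) Uq Up ≤ κ →
      CH (Pool.Agent.H49.Ent.cond F.p A True) Xp (fun ω => (Xq ω, (zw ω, F.W ω))) ≤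
        (∑ i ∈ range r, (nf i - nn i)) * Real.log 2 * J + κ →
      CH (Pool.Agent.H49.Ent.cond F.p A True) Xq (fun ω => (Xp ω, (zw ω, F.W ω))) ≤ κ →
      VLaw2 (Pool.Agent.H49.Ent.cond F.p A True) zw Rj Rx R' F.W Xq Xp Uq Up N1 N2
        (fun ω => fun l : Fin r => F.X J ω (c l)) ((∑ i ∈ range r, (nf i - nn i)) * Real.log 2 * J)
        ((∑ i ∈ range r, (1 - nf i)) * Real.log 2 * J) κ) := by
  have hφ := L.φ0
  have hr0 : (0 : ℝ) ≤ r := Nat.cast_nonneg r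
  -- the trivial quantities
  have hnt : NlqI S c r w₁ j (tQt m) (tQt m) 0 := by
    refine ⟨1, one_pos, 1, one_pos, fun K => Bas.mono 0 (pos_bas L.pos) ?_⟩
    rintro J - F A hA V z V' z' - - u₁ u₂ - -
    have h0 := (isLaw_cond F.isLaw hA).nonneg
    rw [CH_eq_zero h0 fun _ _ _ _ _ => rfl, CH_eq_zero h0 fun _ _ _ _ _ => rfl]
    simp
  obtain ⟨k0, hk0, e0, he0, H0⟩ := vlaw_gen L N (Q₁ := tQt m) (Q₂ := tQt m)
    (Few0.few L.pos (few0_tQt L.pos)) (few0_tQt L.pos) hfr hnt hκf le_rfl ε hε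
  obtain ⟨e1, he1, H1⟩ := c1.mx L.pos ε hε
  obtain ⟨e2, he2, H2⟩ := c2.mx L.pos ε hε
  obtain ⟨k3, hk3, e3, he3, H3⟩ := hnl
  obtain ⟨k, hk, l0, l3, lη⟩ : ∃ k : ℝ, 0 < k ∧ k ≤ k0 ∧ k ≤ k3 ∧ k ≤ ε / 2 := by
    refine ⟨min k0 (min k3 (ε / 2)), by positivity, ?_, ?_, ?_⟩ <;>
    simp only [min_le_iff, le_refl, true_or, or_true]
  obtain ⟨e₀, he₀, f0, f1, f2, f3⟩ : ∃ e₀ : ℝ, 0 < e₀ ∧ e₀ ≤ e0 ∧ e₀ ≤ e1 ∧ e₀ ≤ e2 ∧
      e₀ ≤ e3 := by
    refine ⟨min e0 (min e1 (min e2 e3)), by positivity, ?_, ?_, ?_, ?_⟩ <;>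
    simp only [min_le_iff, le_refl, true_or, or_true]
  refine ⟨k, hk, e₀, he₀, fun K => Bas.mono 0 (((H0 K).and (H1 K)).and ((H2 K).and
    ((H3 K).and (pos_bas L.pos)))) ?_⟩
  rintro J - F A ⟨⟨H0, H1⟩, H2, H3, hA⟩ V₁ zw V₂ Rj V₃ Rx V₄ R' hzw hRj hRx hR' Xq Xp Up N1 N2
    hXq hXp hUp hN1 hN2 δ Uq κ hκ huq hcn hqp
  have hJ0 : (0 : ℝ) ≤ J := Nat.cast_nonneg J
  have hΔ0 : 0 ≤ r * Δ := by
    rcases Nat.eq_zero_or_pos r with h | h
    · rw [h]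
      simp
    · have h1 := N.nf0 0 h
      have h2 := N.nfΔ 0 h
      have : 0 ≤ Δ := by linarith
      positivity
  have g1 : 0 ≤ (r * Δ + 20 * (r : ℝ) ^ 2 * φ + κf) * J := by
    have : 0 ≤ 20 * (r : ℝ) ^ 2 * φ := by positivity
    exact mul_nonneg (by linarith) hJ0
  have g2 : 0 ≤ κn * J := mul_nonneg hκn hJ0
  have g3 : 0 ≤ c₀ * J := mul_nonneg hc₀ hJ0
  have g4 : 0 ≤ ε * J := mul_nonneg hε.le hJ0
  have hV := H0 V₁ zw V₂ Rj V₃ Rx V₄ R' (hzw.le' l0) (hRj.le' l0) (hRx.le' l0) (hR'.le' l0) Xq Xp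
    Up (fun _ => ()) (fun _ => ()) ((qJets m c 0 r 0 _ _ _).mono le_rfl f0 hXq)
    ((qJets m c 0 r 0 _ _ _).mono le_rfl f0 hXp) ((qG m c r sp b P).mono le_rfl f0 hUp)
    (fun _ _ => rfl) (fun _ _ => rfl) δ Uq κ (by linarith) huq hcn hqp
  have a1 := H1 V₂ Rj (hRj.le' lη) Xq N1 ((qJets m c 0 r 0 _ _ _).mono le_rfl f1 hXq)
    (Q₁.mono le_rfl f1 hN1)
  have a2 := H2 V₄ R' (hR'.le' lη) N2 (Q₂.mono le_rfl f2 hN2)
  have a3 := H3 V₁ zw V₂ Rj (hzw.le' l3) (hRj.le' l3) N1 N2 (Q₁.mono le_rfl f3 hN1)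
    (Q₂.mono le_rfl f3 hN2)
  exact ⟨hV.h0, hV.κ0, hV.zj, hV.zx, hV.jr, hV.xr, hV.uq, hV.fr, hV.fj, hV.fx, hV.cn, hV.qp,
    hV.px, by linarith, by linarith, by linarith, hV.jp, hV.gj, hV.gx⟩

/-- **Larger errors.** -/
theorem LadT.mono {S : PCl m} {c : ℕ → Fin m} {k f : ℕ} {sn : ℕ → ℝ → ℝ} {G : Set ℝ} {b o φ : ℝ}
    (L : LadT S c k f sn G b o φ) {φ₁ : ℝ} (h : φ ≤ φ₁) : LadT S c k f sn G b o φ₁ where
  tm := L.tm
  pos := L.pos
  inj := L.inj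
  ch := L.ch
  att := L.att
  bG := L.bG
  oG := L.oG
  b0 := L.b0
  bo := L.bo
  o1 := L.o1
  φ0 := L.φ0.trans_le h
  fm := by
    obtain ⟨φ', h1, h2, h3, h4⟩ := L.fm
    exact ⟨φ', h1, h2.trans h, h3, fun l a b v hv v' hv' h5 h6 h7 h8 =>
      (h4 l a b v hv v' hv' h5 h6 h7 h8).trans (by linarith)⟩
  fl := fun i hi v hv h3 h4 => (L.fl i hi v hv h3 h4).trans h
  st := fun l a b v hv v' hv' h3 h4 h5 => (L.st l a b v hv v' hv' h3 h4 h5).trans (by linarith)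
  eq := fun l a b v hv v' hv' h3 h4 h5 => (L.eq l a b v hv v' hv' h3 h4 h5).trans h
  et := fun v hv v' hv' h3 h4 h5 => (L.et v hv v' hv' h3 h4 h5).trans h

/-- The constants. -/
theorem vl_num {k f : ℕ} {φ Cn : ℝ} (hφ : 0 < φ) (hC : 100 * ((k : ℝ) + f + 3) ^ 2 ≤ Cn) :
    60 * (k * φ) + 60 * (f * φ) + 100 * φ ≤ Cn * φ ∧
      ((f : ℝ) + 1) * (20 * (f * φ) + 21 * φ) ≤ Cn * φ := by
  have hk0 : (0 : ℝ) ≤ k := Nat.cast_nonneg k
  have hf0 : (0 : ℝ) ≤ f := Nat.cast_nonneg f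
  constructor
  · have : 60 * (k * φ) + 60 * (f * φ) + 100 * φ = (60 * (k : ℝ) + 60 * f + 100) * φ := by ring
    rw [this]
    refine mul_le_mul_of_nonneg_right (le_trans ?_ hC) hφ.le
    nlinarith
  · have : ((f : ℝ) + 1) * (20 * (f * φ) + 21 * φ) = (((f : ℝ) + 1) * (20 * f + 21)) * φ := by
      ring
    rw [this]
    refine mul_le_mul_of_nonneg_right (le_trans ?_ hC) hφ.le
    nlinarith [mul_nonneg hk0 hf0]

/-- **The mutual informations** over the canonical records. -/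
theorem vlT_fam (hn : NlqrStmt) (f : ℕ) : VlTStmt f := by
  intro k
  obtain ⟨Cq, hCq, Hn⟩ := hn k f
  refine ⟨max Cq (100 * ((k : ℝ) + f + 3) ^ 2), le_max_of_le_left hCq, ?_⟩
  intro m S c D sn sp Gs b o φ L hI s w u y ξ T Λ C κa Cn' lam j x x' xr xq w₁ vq oq xa Nn hCn hCC
    hatt P κf κn hfr hnl hκf hκn hsp ε hε Ec
  obtain ⟨rk, Ee, hrk, hEe, hat, hEs⟩ := hatt
  obtain ⟨e, he⟩ : ∃ e : ℝ, e = Cn' * φ := ⟨_, rfl⟩
  rw [← he] at Nn ⊢
  have hφ0 := Nn.φ0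
  have hCq0 : (0 : ℝ) < Cq := by linarith
  have hCqn : Cq ≤ Cn' := (le_max_left _ _).trans hCn
  obtain ⟨v1, v2⟩ := vl_num (k := k) (f := f) hφ0 (le_max_right Cq (100 * ((k : ℝ) + f + 3) ^ 2))
  have v3 : max Cq (100 * ((k : ℝ) + f + 3) ^ 2) * φ ≤ e := by
    rw [he]
    exact mul_le_mul_of_nonneg_right hCn hφ0.le
  have v4 : max Cq (100 * ((k : ℝ) + f + 3) ^ 2) * φ ≤ C * φ :=
    mul_le_mul_of_nonneg_right hCC hφ0.le
  obtain ⟨b1, b2, b3, b4, b5, b6, b7, b8, b9, b10, b11, b12, b13, b14, b15, b16, b17⟩ := Nn.wb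
  obtain ⟨a1, a2, a3, a4, a5, a6, a7, a8, a9, a10, a11, a12, a13, a14, a15⟩ := Nn.wins
  obtain ⟨h1, h2, h3, h4, h5, h6, h7, h8, h9, h10⟩ := Nn.sm
  obtain ⟨k1, k2, k3, k4, -⟩ := Nn.k9_c
  obtain ⟨g1, g2, g3, g4, g5, g6, g7⟩ := Nn.few_c
  obtain ⟨f1, f2, f3, f4, f5⟩ := Nn.few0_c
  obtain ⟨q1, q2, q3, q4, q5, q6, q7, q8, q9, q10, q11, q12, q13, q14, q15, q16, q17⟩ := Nn.nlq_c
  obtain ⟨n1, n2, n3, n4, n5, n6, n7, n8⟩ := Nn.nb_c
  obtain ⟨m1, m2⟩ := Nn.lmo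
  have hk1 := Nn.k1
  have hu := Nn.u0
  have hyu := Nn.yu
  have hy0 := Nn.y0
  have hroom := Nn.room
  have hTu := Nn.Tu0
  have hru := Nn.ru0
  have hs := Nn.s1
  have ho1 := Nn.o1
  obtain ⟨d1, d2⟩ := Nn.ξu
  have V := Nn.vb
  have hr0 : (0 : ℝ) ≤ k := Nat.cast_nonneg k
  have hf0 : (0 : ℝ) ≤ f := Nat.cast_nonneg f
  have hl5 : 0 < Real.log 5 := Real.log_pos (by norm_num)
  have hl2 : 0 < Real.log 2 := Real.log_pos one_lt_two
  have hl2' : Real.log 2 ≤ 1 := by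
    have := Real.log_two_lt_d9
    linarith
  have hEf : lam oq + Ee ≤ 1 := by linarith
  have hf : ∀ (J : ℕ) (F : Fam m J), ∃ χ : PtT F → PtT F, ∀ ω, ptr F J ω = χ (ptr F J ω) :=
    fun J F => ⟨fun x => x, fun _ => rfl⟩
  have hw₁ : w ≤ w₁ := Nn.hw1
  have hkφ : 0 ≤ (k : ℝ) * φ := h1
  have hfφ : 0 ≤ (f : ℝ) * φ := by positivity
  have hx'1 : x' ≤ 1 := by
    have : 0 ≤ 100 * ((k : ℝ) + 2) * φ := by positivity
    linarith
  -- the near digits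
  have c1 : FewC S (fun J F => ptr F J) (vg j) (fun _ F => F.W)
      (qJets m c 0 k 0 (fun _ _ => b) (fun l _ => sn l b - φ) (fun l _ => nnP k sn w u y φ l))
      (qTg m c k (f + 1) w (fun v => sn (k + v) w - φ) (fun v => sn (k + v) j - 60 * φ)) y := by
    have hone : ∀ v : Fin (f + 1), FewC S (fun J F => ptr F J) (vg j) (fun _ F => F.W)
        (qJets m c 0 k 0 (fun _ _ => b) (fun l _ => sn l b - φ) (fun l _ => nnP k sn w u y φ l))
        (qJet m ((range (k + (v : ℕ))).image c) (c (k + v)) 0 w (sn (k + v) w - φ)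
          (sn (k + v) j - 60 * φ)) (20 * (f * φ) + 21 * φ) := by
      intro v
      have hv : (v : ℕ) ≤ f := by have := v.2; omega
      have hvf : ((v : ℕ) : ℝ) * φ ≤ f * φ :=
        mul_le_mul_of_nonneg_right (by exact_mod_cast hv) hφ0.le
      have hv0 : 0 ≤ ((v : ℕ) : ℝ) * φ := by positivity
      have e1 : 20 * (((v : ℕ) : ℝ) + 1) * φ = 20 * (v * φ) + 20 * φ := by ring
      have t1 := t_nupr (L.tk hv).toLadR (f := fun J F => ptr F J) (y := fun _ F => F.W) hf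
        (kn_W (c := c)) (w := w) (j := j) (oj := j) (pr := sn (k + v) w - φ)
        (N := sn (k + v) j - 60 * φ - (20 * (v * φ) + 21 * φ)) (p := fun l => sn l b - φ)
        (n := nnP k sn w u y φ) Nn.wG Nn.jG g1 g2 g3 le_rfl g4 (fun i _ => le_rfl) le_rfl g5 g6
        (fun v' hv' h11 h12 => by
          rw [e1]
          have a := (abs_le.1 (L.eqa (Nat.le_add_right k v) (by omega) v' hv' j Nn.jG
            (b1.trans h11) h12 b5)).2
          linarith)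
        (by
          rw [e1]
          have a := g7 (k + v) (by omega) (by omega) 0 hk1
          have a' := g5.hi 0 hk1
          linarith)
        (fun i hi => by
          rw [e1]
          have a := g7 (k + v) (by omega) (by omega) i hi
          linarith)
      refine (few_more L.pos (by linarith) t1).mono ?_
      have e2 : sn (k + v) j - 60 * φ - (sn (k + v) j - 60 * φ - (20 * (v * φ) + 21 * φ)) =
          20 * (v * φ) + 21 * φ := by ring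
      rw [e2]
      have e3 : Real.log 2 * (20 * (v * φ) + 21 * φ) ≤ 1 * (20 * (v * φ) + 21 * φ) :=
        mul_le_mul_of_nonneg_right hl2' (by linarith)
      linarith
    refine (fewC_pi L.pos hone).mono ?_
    rw [Finset.sum_const, Finset.card_univ, Fintype.card_fin, nsmul_eq_mul]
    push_cast
    linarith
  -- the far digits
  have hM2 : ∀ v ≤ f, (if v = f then lam oq else sn (k + v) xq - e) +
      (60 * (k * φ) + 60 * (f * φ) + 100 * φ) ≤ sn (k + v) w + (1 + ξ) * u + 521 * y := by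
    intro v hv
    split_ifs with h
    · subst h
      linarith
    · have := (Nn.lmq (show k ≤ k + v by omega) (by omega)).1
      linarith
  have c2 : Few0 S (fun J F => ptr F J) (vg x') (fun _ F => F.W)
      (qTg m c k (f + 1) w (fun v => sn (k + v) w - φ)
        (fun v => if v = f then lam oq else sn (k + v) xq - e)) := by
    refine few_tQt L.pos (few_pi L.pos fun v => Few0.few L.pos ?_)
    have hv : (v : ℕ) ≤ f := by have := v.2; omega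
    have hvf : ((v : ℕ) : ℝ) * φ ≤ f * φ :=
      mul_le_mul_of_nonneg_right (by exact_mod_cast hv) hφ0.le
    have hv0 : 0 ≤ ((v : ℕ) : ℝ) * φ := by positivity
    have e1 : 60 * ((k : ℝ) + (v : ℕ) + 1) * φ = 60 * (k * φ) + 60 * (v * φ) + 60 * φ := by ring
    obtain ⟨p1, p2⟩ := f5 (k + v) (by omega) (by omega) _ (hM2 v hv)
    have p0 : 0 ≤ 100 * ((k : ℝ) + 2) * φ := by positivity
    exact t_nu0r (L.tk hv).toLadR (f := fun J F => ptr F J) (y := fun _ F => F.W) hf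
      (kn_W (c := c)) (w := w) (x := xr) (x' := x') (ox := x') (pr := sn (k + v) w - φ)
      Nn.wG Nn.rG Nn.xG' b1 f1 (by rw [e1]; linarith) f3 le_rfl hx'1 (by rw [e1]; linarith) le_rfl
      (fun v' hv' h11 h12 => by
        rw [e1]
        have a := (abs_le.1 (L.eqa (Nat.le_add_right k v) (by omega) v' hv' xr Nn.rG
          (b1.trans h11) h12 b11)).2
        linarith) (by rw [e1]; linarith)
  -- no look-ahead
  have hφ₁ : φ ≤ e / Cq := by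
    rw [le_div_iff₀ hCq0, he, mul_comm]
    exact mul_le_mul_of_nonneg_right hCqn hφ0.le
  have hCe : Cq * (e / Cq) = e := by
    field_simp
  have hC2 : 2 * Cq * (e / Cq) = 2 * e := by
    rw [mul_assoc, hCe]
  have hCf : 8 * ((f : ℝ) + 1) * Cq * (e / Cq) = 8 * ((f : ℝ) + 1) * Cn' * φ := by
    rw [mul_assoc, hCe, he]
    ring
  have hnlq := Hn (L.mono hφ₁) hI (w := w) (w₁ := w₁) (vq := vq) (j := j) (x₄ := xq)
    (pr := fun v => sn (k + v) w - φ) (M₁ := fun v => sn (k + v) j - 60 * φ)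
    (M₂ := fun v => if v = f then lam oq else sn (k + v) xq - e) (Λ₁ := lam vq) (E₁ := Ee)
    (κn := κn) Nn.wG Nn.jG Nn.qG b1 hw₁ q1 Nn.hq1 q2 q3 q4 (by rw [hCe]; exact q5)
    (by rw [hCe]; exact q6) (fun v _ => by linarith)
    (fun v hv => by
      rw [hCe]
      rcases Nat.lt_or_ge v f with h | h
      · obtain ⟨i1, i2, i3, i4, i5, i6⟩ := q11 (k + v) (by omega) (by omega)
        rw [if_neg h.ne]
        exact ⟨i1, i3, i6, q17 (k + v) (by omega) (by omega)⟩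
      · obtain rfl : v = f := by omega
        rw [if_pos rfl]
        exact ⟨q7, q9, q10, q16⟩)
    (by rw [hCe]; exact q8)
    (fun v hv => by
      obtain ⟨i1, i2, i3, i4, i5, i6⟩ := q11 (k + v) (by omega) (by omega)
      rw [hCe, hC2, if_neg hv.ne]
      exact ⟨i2, i4, i5⟩)
    (fun v hv l hl => by
      rw [hCe]
      rcases Nat.lt_or_ge v f with h | h
      · rw [if_neg h.ne]
        exact q13 (k + v) (by omega) (by omega) l (by omega)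
      · obtain rfl : v = f := by omega
        rw [if_pos rfl]
        exact q12 l hl)
    (fun l hl => by rw [hCe]; exact q14 l hl)
    (fun l hl l' hl' => by rw [hCe]; exact q15 l hl l' hl')
    ⟨rk, hrk, hEe, hat, by simp only [if_true]; exact hEf⟩
    (by simp only [if_true]; exact hnl) hκn (κn + 8 * ((f : ℝ) + 1) * Cn' * φ)
    (by rw [hCf])
  have hfe : 0 ≤ 8 * ((f : ℝ) + 1) * Cn' * φ := by
    have : 0 ≤ Cn' := by linarith
    positivity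
  obtain ⟨ka, hka, ea, hea, Ha⟩ := vlaw_genC L.lad V hy0.le c1 c2 hfr hnlq hκf (by linarith) ε hε
  obtain ⟨kb, hkb, eb, heb, Hb'⟩ := fup L.lad Nn.xG b6 b7 (p := fun l => sn l b - φ)
    (fun i _ => le_rfl) (q := nnP k sn w u y φ) (n := nfP k sn w xr φ)
    (fun i hi => ⟨V.nx i hi, n4 i hi, (n1 i hi).2⟩) n2 ε hε
  obtain ⟨Ma, Ja, hMa⟩ := ld_jh m D k (nnP k sn w u y φ) (b := b) (E := Ec) k1 (by linarith)
  obtain ⟨Mb, Jb, hMb⟩ := ld_jh m D k (nfP k sn w x' φ) (b := b) (E := Ec) k1 (by linarith)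
  obtain ⟨Mc, Jc, hMc⟩ := ld_jh m D k (nfP k sn w xr φ) (b := b) (E := Ec) k1 (by linarith)
  obtain ⟨Md, Jd, hMd⟩ := ld_jv m D k P (b := b) (E := Ec) k1 (by linarith)
  obtain ⟨Me, Je, hMe⟩ := ldp_tg m D k f (fun v => sn (k + v) j - 60 * φ) (w := w) (E := Ec)
    (by linarith) (by linarith)
  obtain ⟨Mg, Jg, hMg⟩ := ldp_tg m D k f (fun v => if v = f then lam oq else sn (k + v) xq - e)
    (w := w) (E := Ec) (by linarith) (by linarith)
  obtain ⟨M, hM⟩ : ∃ M : ℕ, M = Ma + Mb + Mc + Md + Me + Mg := ⟨_, rfl⟩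
  obtain ⟨J₁, hJ₁⟩ := exists_nat_gt (k * Real.log 5 / ε)
  refine Bas.mono (Ja + Jb + Jc + Jd + Je + Jg + J₁) (((Ha M).and (Hb' M)).and
    (pos_bas L.pos)) ?_
  rintro J hJ F A ⟨⟨H1, H2⟩, hA⟩ Hb H LDh Na Nf hNa hNf hNa1 hNf1 κ' hκ'
  have hcl := isLaw_cond F.isLaw hA
  have h0 := hcl.nonneg
  have hJ0 : (0 : ℝ) ≤ J := Nat.cast_nonneg J
  have LD' := LDh.toLD
  have p1 := hMa M (by omega) J (by omega) LD' ea hea.le
  have p2 := hMb M (by omega) J (by omega) LD' ea hea.le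
  have p3 := hMc M (by omega) J (by omega) LD' eb heb.le
  have p3' := hMa M (by omega) J (by omega) LD' eb heb.le
  have p4 := hMd M (by omega) J (by omega) LD' hsp ea hea.le
  have p5 := hMe M (by omega) J (by omega) LDh ea hea.le
  have p6 := hMg M (by omega) J (by omega) LDh ea hea.le
  have eNa : (fun l => Na l 0) = nnP k sn w u y φ := funext hNa
  have eNf : (fun l => Nf l 0) = nfP k sn w x' φ := funext hNf
  have eP : (fun l => Nf l 1) = P := funext hNf1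
  obtain ⟨κ₀, hκ₀⟩ : ∃ κ₀ : ℝ, κ₀ = (k * (40 * y) + 20 * (k : ℝ) ^ 2 * φ + κf +
    (κn + 8 * ((f : ℝ) + 1) * Cn' * φ) + y + ε) * J := ⟨_, rfl⟩
  have hκ1 : κ₀ + k * Real.log 5 ≤ κ' := by
    rw [hκ₀]
    have : 0 ≤ 9 * y * J := by positivity
    linarith
  have hlog : k * Real.log 5 ≤ ε * J := by
    have e1 : (J₁ : ℝ) ≤ J := by
      have : J₁ ≤ J := by omega
      exact_mod_cast this
    have e2 := hJ₁.le.trans e1
    rw [div_le_iff₀ hε] at e2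
    linarith
  have hlog0 : 0 ≤ k * Real.log 5 := by positivity
  have hκε : ε * J + 20 * (k : ℝ) ^ 2 * φ * J ≤ κ₀ := by
    rw [hκ₀]
    have e1 : 0 ≤ (k * (40 * y) + κf + (κn + 8 * ((f : ℝ) + 1) * Cn' * φ) + y) * J := by
      have : 0 ≤ k * (40 * y) := by positivity
      exact mul_nonneg (by linarith) hJ0
    linarith
  have h20 : 0 ≤ 20 * (k : ℝ) ^ 2 * φ * J := by positivity
  have hZ1 : CH (Pool.Agent.H49.Ent.cond F.p A True) (jv F c k ⌊w * J⌋₊ H fun l => Na l 1)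
      (jv F c k ⌊w * J⌋₊ H P) ≤ k * Real.log 5 := by
    have := CH_jv hcl (F := F) (c := c) (r := k) (w := ⌊w * J⌋₊) (H := H) (n := P)
      (n' := fun l => Na l 1) (d := 0) (fun l hl => by
        have := hNa1 l hl
        show (Na l 1 - P l) * J ≤ 0
        linarith) le_rfl (jv F c k ⌊w * J⌋₊ H P) (fun _ _ _ _ e => e)
    rw [zero_mul, zero_add] at this
    exact this
  have hZ2 := CH_jhs hcl (F := F) (c := c) (r := k) (w := ⌊w * J⌋₊) (H := H)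
    (n := nnP k sn w u y φ) (n' := nfP k sn w x' φ) V.nnf
    (fun ω => (jh F c k ⌊w * J⌋₊ H (nnP k sn w u y φ) ω, (cR F A w₁ ω, F.W ω)))
    (fun ω ν _ _ e => (Prod.ext_iff.mp e).1)
  have hZ3 := CH_jh hcl (F := F) (c := c) (r := k) (w := ⌊w * J⌋₊) (H := H)
    (n := nfP k sn w x' φ) (n' := nnP k sn w u y φ) (d := 0) (fun l hl => by
      have := mul_le_mul_of_nonneg_right (V.nnf l hl) hJ0
      linarith) le_rfl
    (fun ω => (jh F c k ⌊w * J⌋₊ H (nfP k sn w x' φ) ω, (cR F A w₁ ω, F.W ω)))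
    (fun ω ν _ _ e => (Prod.ext_iff.mp e).1)
  rw [zero_mul, zero_add] at hZ3
  rw [eNa, eNf, eP]
  have hV : ∀ κ'' : ℝ, κ₀ ≤ κ'' → _ := fun κ'' hκ'' => H1 _ (cR F A w₁) _ (cR F A j) _ (cR F A x) _
    (cR F A x') (mx_cR hA w₁ hka.le) (mx_cR hA j hka.le) (mx_cR hA x hka.le) (mx_cR hA x' hka.le)
    (jh F c k ⌊w * J⌋₊ H (nnP k sn w u y φ)) (jh F c k ⌊w * J⌋₊ H (nfP k sn w x' φ))
    (jv F c k ⌊w * J⌋₊ H P) (thT F c k f ⌊w * J⌋₊ H (fun v => sn (k + v) j - 60 * φ))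
    (thT F c k f ⌊w * J⌋₊ H (fun v => if v = f then lam oq else sn (k + v) xq - e))
    p1 p2 p4 p5 p6 _ (jv F c k ⌊w * J⌋₊ H fun l => Na l 1) κ''
    (by rw [← hκ₀]; exact hκ'') (hZ1.trans (by linarith)) (hZ2.trans (by linarith))
    (hZ3.trans (by linarith))
  have hV0 := hV κ₀ le_rfl
  refine ⟨hV κ' (by linarith), ?_, fun X hX => ?_⟩
  · have e1 := CH_le_add h0 (jh F c k ⌊w * J⌋₊ H (nfP k sn w xr φ))
      (jh F c k ⌊w * J⌋₊ H (nfP k sn w x' φ)) (fun ω => (cR F A x' ω, F.W ω))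
    have e2 := CH_jh hcl (F := F) (c := c) (r := k) (w := ⌊w * J⌋₊) (H := H)
      (n := nfP k sn w x' φ) (n' := nfP k sn w xr φ) (d := 0) (fun l hl => by
        have e3 := mul_le_mul_of_nonneg_right (n5 l hl) hJ0
        linarith) le_rfl
      (fun ω => (jh F c k ⌊w * J⌋₊ H (nfP k sn w x' φ) ω, (cR F A x' ω, F.W ω)))
      (fun ω ν _ _ e => (Prod.ext_iff.mp e).1)
    rw [zero_mul, zero_add] at e2
    have e3 := hV0.px
    linarith
  · have e1 := H2 _ (cR F A x) (mx_cR hA x hkb.le) _ _ p3 p3'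
    have e3 : k * (ξ * u) ≤ ∑ i ∈ range k, (nfP k sn w xr φ i - nnP k sn w u y φ i) := by
      have e4 : ∑ i ∈ range k, ξ * u ≤ ∑ i ∈ range k, (nfP k sn w xr φ i - nnP k sn w u y φ i) :=
        Finset.sum_le_sum fun i hi => n6 i (mem_range.1 hi)
      rw [Finset.sum_const, card_range, nsmul_eq_mul] at e4
      exact e4
    have e5 : (k * (ξ * u) - 20 * (k : ℝ) ^ 2 * φ) * Real.log 2 * J ≤
        ((∑ i ∈ range k, (nfP k sn w xr φ i - nnP k sn w u y φ i)) - 20 * (k : ℝ) ^ 2 * φ) *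
          Real.log 2 * J :=
      mul_le_mul_of_nonneg_right (mul_le_mul_of_nonneg_right (by linarith) hl2.le) hJ0
    have e6 : k * (X * Real.log 2) ≤ k * (ξ * u * J * Real.log 2) :=
      mul_le_mul_of_nonneg_left (mul_le_mul_of_nonneg_right hX hl2.le) hr0
    have e7 : 20 * (k : ℝ) ^ 2 * φ * J * Real.log 2 ≤ 20 * (k : ℝ) ^ 2 * φ * J * 1 :=
      mul_le_mul_of_nonneg_left hl2' h20
    linarith

end Pool.V0T
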